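import Mathlib

set_option autoImplicit false

/-! Solution in power series of `u = φ (s ^ 2 u)` and the expansion at infinity of the curve
`y ^ 2 = f (x)`, `f` monic of degree five. -/

namespace Pool.Agent.N349.PY.PAR

open Polynomial

variable {R : Type} [CommRing R]

noncomputable def T (φ : R[X]) (g : PowerSeries R) : PowerSeries R :=
  Polynomial.eval₂ (PowerSeries.C (R := R)) (PowerSeries.X ^ 2 * g) φ

theorem T_dvd (φ : R[X]) (n : ℕ) (g h : PowerSeries R) (H : PowerSeries.X ^ n ∣ g - h) :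
    PowerSeries.X ^ (n + 1) ∣ T φ g - T φ h := by
  have h1 : PowerSeries.X ^ 2 * g - PowerSeries.X ^ 2 * h ∣ T φ g - T φ h := by
    unfold T
    rw [← Polynomial.eval_map, ← Polynomial.eval_map]
    exact Polynomial.sub_dvd_eval_sub _ _ _
  refine dvd_trans ?_ h1
  obtain ⟨q, hq⟩ := H
  exact ⟨PowerSeries.X * q, by rw [← mul_sub, hq]; ring⟩

noncomputable def it (φ : R[X]) : ℕ → PowerSeries R
  | 0 => 0
  | n + 1 => T φ (it φ n)

theorem it_succ_dvd (φ : R[X]) (n : ℕ) : PowerSeries.X ^ n ∣ it φ (n + 1) - it φ n := by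
  induction n with
  | zero => simp
  | succ n ih => exact T_dvd φ n _ _ ih

theorem it_dvd (φ : R[X]) (n k : ℕ) : PowerSeries.X ^ n ∣ it φ (n + k) - it φ n := by
  induction k with
  | zero => simp
  | succ k ih =>
    have h1 : PowerSeries.X ^ n ∣ it φ (n + k + 1) - it φ (n + k) :=
      dvd_trans (pow_dvd_pow _ (by omega)) (it_succ_dvd φ (n + k))
    have := dvd_add h1 ih
    rw [show n + (k + 1) = n + k + 1 by omega]
    rwa [sub_add_sub_cancel] at this

noncomputable def lim (φ : R[X]) : PowerSeries R :=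
  PowerSeries.mk fun k => PowerSeries.coeff k (it φ (k + 1))

theorem lim_dvd (φ : R[X]) (n : ℕ) : PowerSeries.X ^ n ∣ lim φ - it φ n := by
  rw [PowerSeries.X_pow_dvd_iff]
  intro m hm
  rw [map_sub, lim, PowerSeries.coeff_mk]
  obtain ⟨k, rfl⟩ : ∃ k, n = m + 1 + k := ⟨n - (m + 1), by omega⟩
  have h := (PowerSeries.X_pow_dvd_iff.mp (it_dvd φ (m + 1) k)) m (by omega)
  rw [map_sub] at h
  linear_combination -h

theorem lim_eq (φ : R[X]) : lim φ = T φ (lim φ) := by
  have h : ∀ n, PowerSeries.X ^ n ∣ lim φ - T φ (lim φ) := by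
    intro n
    have h1 := lim_dvd φ (n + 1)
    have h2 := T_dvd φ n _ _ (lim_dvd φ n)
    have h3 := dvd_trans (pow_dvd_pow PowerSeries.X (Nat.le_succ n)) (dvd_sub h1 h2)
    have e : lim φ - it φ (n + 1) - (T φ (lim φ) - T φ (it φ n)) = lim φ - T φ (lim φ) := by
      rw [it]; ring
    rwa [e] at h3
  rw [← sub_eq_zero]
  ext k
  rw [map_zero]
  exact (PowerSeries.X_pow_dvd_iff.mp (h (k + 1))) k (by omega)

theorem cc_lim (φ : R[X]) : PowerSeries.constantCoeff (lim φ) = φ.coeff 0 := by
  rw [lim_eq, T, Polynomial.hom_eval₂, map_mul, map_pow, PowerSeries.constantCoeff_X]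
  simp [Polynomial.eval₂_at_zero]

/-- the expansion at infinity of `y ^ 2 = f (x)` -/
theorem exists_xy (f : R[X]) (hm : f.Monic) (hd : f.natDegree = 5) :
    ∃ (x y : LaurentSeries R) (α β : PowerSeries R), PowerSeries.constantCoeff α = 1 ∧
      PowerSeries.constantCoeff β = 1 ∧
      x = HahnSeries.single (-2) 1 * HahnSeries.ofPowerSeries ℤ R α ∧
      y = HahnSeries.single (-5) 1 * HahnSeries.ofPowerSeries ℤ R β ∧
      y ^ 2 = Polynomial.eval₂ (HahnSeries.C : R →+* LaurentSeries R) x f := by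
  set φ := Polynomial.reflect 5 f with hφ
  have hφ0 : φ.coeff 0 = 1 := by
    rw [hφ, Polynomial.coeff_reflect]
    simp only [Polynomial.revAt_le (Nat.zero_le 5), Nat.sub_zero]
    rw [← hd]
    exact hm
  set u := lim φ with hu
  have hcu : PowerSeries.constantCoeff u = 1 := by rw [hu, cc_lim, hφ0]
  have huu : IsUnit u := by
    rw [PowerSeries.isUnit_iff_constantCoeff, hcu]
    exact isUnit_one
  obtain ⟨α, hα⟩ := huu.exists_right_inv
  have hcα : PowerSeries.constantCoeff α = 1 := by
    have := congrArg PowerSeries.constantCoeff hα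
    rwa [map_mul, hcu, one_mul, map_one] at this
  set O := HahnSeries.ofPowerSeries ℤ R with hO
  set x : LaurentSeries R := HahnSeries.single (-2) 1 * O α with hx
  set z : LaurentSeries R := HahnSeries.single 2 1 * O u with hz
  have hs : (HahnSeries.single (-2) 1 : LaurentSeries R) * HahnSeries.single 2 1 = 1 := by
    rw [HahnSeries.single_mul_single]
    simp
  have hs' : (HahnSeries.single 2 1 : LaurentSeries R) * HahnSeries.single (-2) 1 = 1 := by
    rw [mul_comm]; exact hs
  have hOu : O u * O α = 1 := by rw [← map_mul, hα, map_one]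
  have hzx : z * x = 1 := by
    rw [hx, hz]
    linear_combination (O u * O α) * hs' + hOu
  have hxz : x * z = 1 := by rw [mul_comm]; exact hzx
  let _ : Invertible x := ⟨z, hzx, hxz⟩
  have hzT : Polynomial.eval₂ (HahnSeries.C : R →+* LaurentSeries R) z φ = O u := by
    conv_rhs => rw [hu, lim_eq, T, ← hu]
    rw [Polynomial.hom_eval₂]
    have e1 : (HahnSeries.ofPowerSeries ℤ R).comp (PowerSeries.C (R := R)) =
        (HahnSeries.C : R →+* LaurentSeries R) := by
      refine RingHom.ext fun r => ?_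
      rw [RingHom.comp_apply]
      exact HahnSeries.ofPowerSeries_C r
    have e2 : HahnSeries.ofPowerSeries ℤ R (PowerSeries.X ^ 2 * u) = z := by
      rw [map_mul, HahnSeries.ofPowerSeries_X_pow, hz, hO]
      norm_num
    rw [hO, e1, e2]
  refine ⟨x, HahnSeries.single (-5) 1 * O (α ^ 2), α, α ^ 2, hcα, by rw [map_pow, hcα, one_pow],
    rfl, rfl, ?_⟩
  have h5 := Polynomial.eval₂_reflect_mul_pow (HahnSeries.C : R →+* LaurentSeries R) x 5 f
    (le_of_eq hd)
  rw [← h5]
  have : (⅟x : LaurentSeries R) = z := rfl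
  rw [this, ← hφ, hzT, hx, map_pow]
  have h10 : (HahnSeries.single (-5) 1 : LaurentSeries R) ^ 2 = (HahnSeries.single (-2) 1) ^ 5 := by
    rw [HahnSeries.single_pow, HahnSeries.single_pow]
    simp
  linear_combination (O α) ^ 4 * h10 - (HahnSeries.single (-2) 1) ^ 5 * (O α) ^ 4 * hOu

end Pool.Agent.N349.PY.PAR
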