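import Pool.Agent.N922.PY.Stm
import Pool.Agent.N349.PY.PAR0

set_option autoImplicit false

/-! Part PAR of the project PY (helper922): the expansion at infinity. -/

namespace Pool.Agent.N349.PY.PAR

open Polynomial
open Pool.Agent.N922.PY

theorem t_PAR : S_PAR := by
  intro f hm hd
  obtain ⟨x, y, α, β, hα, hβ, hx, hy, hxy⟩ := exists_xy f hm hd
  set E : ℤ_[2][X] →+* LaurentSeries ℤ_[2] :=
    Polynomial.eval₂RingHom (HahnSeries.C : ℤ_[2] →+* LaurentSeries ℤ_[2]) x with hE
  have hEf : y ^ 2 = E f := hxy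
  refine ⟨{ toFun := fun z => E z.re + E z.im * y
            map_zero' := ?_
            map_one' := ?_
            map_add' := ?_
            map_mul' := ?_ }, ⟨⟨α, hα, ?_⟩, ⟨β, hβ, ?_⟩, ?_⟩⟩
  · rw [QuadraticAlgebra.re_one, QuadraticAlgebra.im_one, map_one, map_zero, zero_mul, add_zero]
  · intro z w
    rw [QuadraticAlgebra.re_mul, QuadraticAlgebra.im_mul]
    simp only [map_add, map_mul, map_zero]
    linear_combination -(E z.im * E w.im) * hEf
  · rw [QuadraticAlgebra.re_zero, QuadraticAlgebra.im_zero, map_zero, zero_mul, add_zero]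
  · intro z w
    rw [QuadraticAlgebra.re_add, QuadraticAlgebra.im_add]
    simp only [map_add]
    ring
  · show E X + E 0 * y = _
    rw [map_zero, zero_mul, add_zero, hE, Polynomial.coe_eval₂RingHom, Polynomial.eval₂_X, hx]
  · show E 0 + E 1 * y = _
    rw [map_zero, map_one, one_mul, zero_add, hy]
  · intro r
    show E (C r) + E 0 * y = _
    rw [map_zero, zero_mul, add_zero, hE, Polynomial.coe_eval₂RingHom, Polynomial.eval₂_C]

end Pool.Agent.N349.PY.PAR
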